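import Mathlib
import Pool.Agent.Q74.Semi.Build
import Pool.Agent.Q74.Semi.Main
import Pool.Agent.Q74.Semi.Example

/-!
# Functions semiconvex and semiconcave with modulus on cone-free convex sets

All four cases of the question are decided, for every dimension `n ≥ 2`.

* For a concave modulus `ω ≠ 0`, *every* unbounded open convex cone-free set `G` carries an
  `ω`-semiconvex and `ω`-semiconcave function outside `C^{1,ω}(G)` if and only if
  `sup_{0 < c < 1} limsup_{R → ∞} ω (c R) / (c ω R) = ∞`.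
* This holds for `ω t = t ^ α`, `0 < α < 1`: cases (c), (d) have a positive answer.
* There is a concave modulus `ω` with `ω t / t → 1` as `t → 0+` and `ω t / t → 0` as `t → ∞` and an
  unbounded open convex cone-free `G` such that every `ω`-semiconvex and `ω`-semiconcave function on
  `G` is in `C^{1,ω}(G)`: cases (a), (b) have a negative answer.
-/

set_option autoImplicit false

open Set Filter Topology

namespace Pool.Agent.Results.MP_d2274e_an.SemiconvexSemiconcave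

/-- The class `ℳ`: non-decreasing functions `ω : [0, ∞) → [0, ∞)` with `ω t → 0` as `t → 0+`
(only the values on `[0, ∞)` matter). -/
structure IsModulus (ω : ℝ → ℝ) : Prop where
  nonneg : ∀ t, 0 ≤ t → 0 ≤ ω t
  mono : ∀ s t, 0 ≤ s → s ≤ t → ω s ≤ ω t
  tendsto_zero : Tendsto ω (𝓝[>] 0) (𝓝 0)

section
variable {n : ℕ}

/-- `G` contains no translate of a convex cone with nonempty interior. -/
def ConeFree (G : Set (EuclideanSpace ℝ (Fin n))) : Prop :=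
  ¬ ∃ (a : EuclideanSpace ℝ (Fin n)) (C : Set (EuclideanSpace ℝ (Fin n))), Convex ℝ C ∧
    (∀ x ∈ C, ∀ l : ℝ, 0 < l → l • x ∈ C) ∧ (interior C).Nonempty ∧ ∀ x ∈ C, a + x ∈ G

/-- The sets of the question: unbounded, open, convex and cone-free. -/
structure Admissible (G : Set (EuclideanSpace ℝ (Fin n))) : Prop where
  isOpen : IsOpen G
  convex : Convex ℝ G
  unbounded : ¬ Bornology.IsBounded G
  coneFree : ConeFree G

/-- `f` is continuous and `ω`-semiconvex on `G`. -/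
def Semiconvex (ω : ℝ → ℝ) (G : Set (EuclideanSpace ℝ (Fin n)))
    (f : EuclideanSpace ℝ (Fin n) → ℝ) : Prop :=
  ContinuousOn f G ∧ ∀ x ∈ G, ∀ y ∈ G, ∀ l ∈ Icc (0:ℝ) 1,
    f (l • x + (1 - l) • y) ≤ l * f x + (1 - l) * f y + l * (1 - l) * ‖x - y‖ * ω ‖x - y‖

/-- `f` is continuous and `ω`-semiconcave on `G`. -/
def Semiconcave (ω : ℝ → ℝ) (G : Set (EuclideanSpace ℝ (Fin n)))
    (f : EuclideanSpace ℝ (Fin n) → ℝ) : Prop :=
  Semiconvex ω G (fun x => - f x)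

/-- `f ∈ C^{1,ω}_*(G)`. -/
def IsC1star (ω : ℝ → ℝ) (G : Set (EuclideanSpace ℝ (Fin n)))
    (f : EuclideanSpace ℝ (Fin n) → ℝ) : Prop :=
  (∀ x ∈ G, DifferentiableAt ℝ f x) ∧ ∀ x ∈ G, ∀ y ∈ G, ‖fderiv ℝ f x - fderiv ℝ f y‖ ≤ ω ‖x - y‖

/-- `f ∈ C^{1,ω}(G)`, the union of the classes `C^{1,Kω}_*(G)`, `K > 0`. -/
def IsC1 (ω : ℝ → ℝ) (G : Set (EuclideanSpace ℝ (Fin n)))
    (f : EuclideanSpace ℝ (Fin n) → ℝ) : Prop :=
  ∃ K : ℝ, 0 < K ∧ IsC1star (fun t => K * ω t) G f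

end

/-- `sup_{0 < c < 1} limsup_{R → ∞} ω (c R) / (c ω R) = ∞`. -/
def Spread (ω : ℝ → ℝ) : Prop :=
  ∀ K : ℝ, ∃ c ∈ Ioo (0:ℝ) 1, ∃ᶠ R in atTop, K * (c * ω R) ≤ ω (c * R)

/-- **Q1, all cases.** -/
theorem result (n : ℕ) (hn : 2 ≤ n) :
    -- concave moduli: for all `G` there is such an `f` if and only if `Spread ω`
    (∀ ω : ℝ → ℝ, IsModulus ω → ConcaveOn ℝ (Ici 0) ω → (∃ t, 0 < t ∧ 0 < ω t) →
      ((∀ G : Set (EuclideanSpace ℝ (Fin n)), Admissible G →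
        ∃ f : EuclideanSpace ℝ (Fin n) → ℝ, Semiconvex ω G f ∧ Semiconcave ω G f ∧ ¬ IsC1 ω G f) ↔
        Spread ω)) ∧
    -- cases (c) and (d): yes, for every `G`
    (∀ α ∈ Ioo (0:ℝ) 1, ∀ G : Set (EuclideanSpace ℝ (Fin n)), Admissible G →
      ∃ f : EuclideanSpace ℝ (Fin n) → ℝ, Semiconvex (fun t => t ^ α) G f ∧
        Semiconcave (fun t => t ^ α) G f ∧ ¬ IsC1 (fun t => t ^ α) G f) ∧
    -- cases (a) and (b): no, in general
    (∃ ω : ℝ → ℝ, IsModulus ω ∧ ConcaveOn ℝ (Ici 0) ω ∧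
      Tendsto (fun t => ω t / t) (𝓝[>] 0) (𝓝 1) ∧ Tendsto (fun t => ω t / t) atTop (𝓝 0) ∧
      ∃ G : Set (EuclideanSpace ℝ (Fin n)), Admissible G ∧
        ∀ f : EuclideanSpace ℝ (Fin n) → ℝ, Semiconvex ω G f → Semiconcave ω G f → IsC1 ω G f) := by
  classical
  have hmod : ∀ ω : ℝ → ℝ, IsModulus ω → ConcaveOn ℝ (Ici 0) ω → Q74.Semi.Mod ω :=
    fun ω h hc => ⟨h.nonneg, h.mono, h.tendsto_zero, hc⟩
  -- Theorem A
  have thmA : ∀ ω : ℝ → ℝ, Q74.Semi.Mod ω → (∃ t, 0 < t ∧ 0 < ω t) → Spread ω →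
      ∀ G : Set (EuclideanSpace ℝ (Fin n)), Admissible G →
        ∃ f : EuclideanSpace ℝ (Fin n) → ℝ, Semiconvex ω G f ∧ Semiconcave ω G f ∧ ¬ IsC1 ω G f := by
    intro ω hω hpos hsp G hG
    obtain ⟨f, hfc, hf1, hf2⟩ := Q74.Semi.build hG.isOpen hG.convex hG.unbounded hG.coneFree hω hpos hsp
    refine ⟨f, ⟨hfc.continuousOn, fun x hx y hy l hl => ?_⟩, ⟨hfc.neg.continuousOn, fun x hx y hy l hl => ?_⟩,
      ?_⟩
    · have := (abs_le.1 (hf1 x hx y hy l hl)).1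
      linarith
    · have := (abs_le.1 (hf1 x hx y hy l hl)).2
      linarith
    · rintro ⟨K, -, -, hK⟩
      obtain ⟨x, hx, y, hy, hxy⟩ := hf2 K
      exact absurd (hK x hx y hy) (not_le.2 hxy)
  -- Theorem B
  have thmB : ∀ ω : ℝ → ℝ, Q74.Semi.Mod ω →
      (∃ K : ℝ, ∀ c ∈ Ioo (0:ℝ) 1, ∀ᶠ R in atTop, ω (c * R) ≤ K * (c * ω R)) →
      ∃ G : Set (EuclideanSpace ℝ (Fin n)), Admissible G ∧
        ∀ f : EuclideanSpace ℝ (Fin n) → ℝ, Semiconvex ω G f → Semiconcave ω G f → IsC1 ω G f := by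
    rintro ω hω ⟨K, hK⟩
    obtain ⟨G, h1, h2, h3, h4, h5⟩ := Q74.Semi.exists_thin
      (e := EuclideanSpace.single (⟨0, by omega⟩ : Fin n) (1:ℝ))
      (w := EuclideanSpace.single (⟨1, by omega⟩ : Fin n) (1:ℝ)) (by simp) (by simp)
      (by rw [EuclideanSpace.inner_single_left]; simp) hω hK
    refine ⟨G, ⟨h1, h2, h3, h4⟩, fun f hf hf' => ?_⟩
    obtain ⟨C, hC, hd, hCf⟩ := h5 f (fun x hx y hy l hl => by
      have a1 := hf.2 x hx y hy l hl
      have a2 := hf'.2 x hx y hy l hl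
      rw [abs_le]
      constructor <;> linarith)
    exact ⟨C, hC, hd, hCf⟩
  refine ⟨fun ω h hc hpos => ⟨fun hall => ?_, thmA ω (hmod ω h hc) hpos⟩, fun α hα => ?_, ?_⟩
  · by_contra hns
    unfold Spread at hns
    push Not at hns
    obtain ⟨K, hK⟩ := hns
    obtain ⟨G, hG, hGf⟩ := thmB ω (hmod ω h hc) ⟨K, fun c hc => by
      filter_upwards [hK c hc] with R hR using hR.le⟩
    obtain ⟨f, hf1, hf2, hf3⟩ := hall G hG
    exact hf3 (hGf f hf1 hf2)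
  · exact thmA _ (Q74.Semi.rpow_mod hα.1 hα.2) ⟨1, one_pos, by simp⟩
      (fun K => Q74.Semi.rpow_spread hα.2 K)
  · obtain ⟨G, hG, hGf⟩ := thmB Q74.Semi.om Q74.Semi.om_mod
      ⟨2, fun c hc => Q74.Semi.om_almost_linear hc⟩
    exact ⟨Q74.Semi.om, ⟨Q74.Semi.om_mod.nonneg, Q74.Semi.om_mod.mono, Q74.Semi.om_mod.lim⟩,
      Q74.Semi.om_mod.conc, Q74.Semi.om_div_zero, Q74.Semi.om_div_top, G, hG, hGf⟩

end Pool.Agent.Results.MP_d2274e_an.SemiconvexSemiconcave
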